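import Mathlib
import Pool.Agent.TH545.CF.Main

set_option autoImplicit false

/-!
# Nagata's conjecture for generic points of the plane in every characteristic

For every algebraically closed field `k` of any characteristic, every `r > 9` and every set of `r`
generic points of the plane over `k`, the Waldschmidt constant is exactly `√r`, and
`m √r ≤ a(S, m)` for all `m`; more generally `∑ w_i ≤ d √r` for every nonzero form of degree `d`
vanishing to order `w_i` at the `i`-th point.
-/

namespace Pool.Agent.Results.MP_d0dfcd_ag.NagataAllCharacteristics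

open MvPolynomial Filter Topology

universe u

/-- The form `F` vanishes to order at least `m` at the point `(1 : p 0 : p 1)`: it lies in the
`m`-th power of the ideal of the point. -/
def VanishesAt {k : Type u} [Field k] (p : Fin 2 → k) (m : ℕ) (F : MvPolynomial (Fin 3) k) :
    Prop :=
  F ∈ (Ideal.span {X 1 - C (p 0) * X 0, X 2 - C (p 1) * X 0} :
    Ideal (MvPolynomial (Fin 3) k)) ^ m

/-- The least degree `a(S, m)` of a nonzero form vanishing to order at least `m` at every point
`(1 : P i 0 : P i 1)`. -/
noncomputable def leastDegree {k : Type u} [Field k] {r : ℕ} (P : Fin r → Fin 2 → k) (m : ℕ) : ℕ :=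
  sInf {d | ∃ F : MvPolynomial (Fin 3) k, F.IsHomogeneous d ∧ F ≠ 0 ∧ ∀ i, VanishesAt (P i) m F}

/-- The points `(1 : P i 0 : P i 1)` are generic: their affine coordinates are algebraically
independent over the prime field `⊥` of `k`. -/
def Generic {k : Type u} [Field k] {r : ℕ} (P : Fin r → Fin 2 → k) : Prop :=
  AlgebraicIndependent (⊥ : Subfield k) (fun ij : Fin r × Fin 2 => P ij.1 ij.2)

theorem result (k : Type u) [Field k] [IsAlgClosed k] (r : ℕ) (hr : 9 < r)
    (P : Fin r → Fin 2 → k) (hP : Generic P) :
    Tendsto (fun m : ℕ => (leastDegree P m : ℝ) / m) atTop (𝓝 (Real.sqrt r)) ∧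
      (∀ m : ℕ, (m : ℝ) * Real.sqrt r ≤ leastDegree P m) ∧
      ∀ (w : Fin r → ℕ) (d : ℕ) (F : MvPolynomial (Fin 3) k), F.IsHomogeneous d → F ≠ 0 →
        (∀ i, VanishesAt (P i) (w i) F) → ∑ i, (w i : ℝ) ≤ Real.sqrt r * d :=
  ⟨Pool.Agent.TH545.CF.wald_all hr.le hP,
    fun m => Pool.Agent.TH545.CF.alp_ge_all hr.le hP m,
    fun w d F hF hne hi => Pool.Agent.TH545.CF.sum_le hr.le hP w d F hF hne hi⟩

end Pool.Agent.Results.MP_d0dfcd_ag.NagataAllCharacteristics
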